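import Pool.Agent.Lib.MP_226ef1_lc.U.Tools

/-!
# Module A2: the trichotomy (A2)
-/

set_option autoImplicit false

namespace Pool.Agent.Lib.MP_226ef1_lc.U.H74

open Pool.Agent.Lib.MP_226ef1_lc.U

universe u

theorem badG0 {J : TS} {α : Type u} {main : α → Prop} {Y : Finset α} {c : α → ℕ} {V : List α}
    (r : ℕ) (hY : ∀ a ∈ V, a ∈ Y) (hlab : ∀ a ∈ V, (main a ↔ c a % 2 = 1))
    (hl : V.length = J.L) (hp : par main V = 0)
    (hc : ∀ k, k ∈ V.map c ↔ (k ∈ sds r 0 ∨ k = oo 0)) : BadIn (G0 J r) Y c V := by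
  refine ⟨hY, Or.inr ⟨by simpa using hl, ?_, hc⟩, fun s hs => ?_⟩
  · rw [sum_map_mod hlab, hp]
  · exact (hc s).2 (Or.inl hs)

theorem badG1 {J : TS} {α : Type u} {main : α → Prop} {Y : Finset α} {c : α → ℕ} {V : List α}
    (r : ℕ) (hY : ∀ a ∈ V, a ∈ Y) (hlab : ∀ a ∈ V, (main a ↔ c a % 2 = 1))
    (hl : V.length = J.L) (hp : par main V = 0)
    (hc : ∀ k, k ∈ V.map c ↔ k ∈ sds r 1) : BadIn (G1 J r) Y c V := by
  refine ⟨hY, Or.inr ⟨by simpa using hl, ?_, hc⟩, fun s hs => ?_⟩
  · rw [sum_map_mod hlab, hp]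
  · exact (hc s).2 hs

theorem mem_map3 {α : Type u} {c : α → ℕ} {V : List α} {x y o : α}
    (h : ∀ a, a ∈ V ↔ (a = x ∨ a = y ∨ a = o)) (k : ℕ) :
    k ∈ V.map c ↔ (k = c x ∨ k = c y ∨ k = c o) := by
  rw [List.mem_map]
  constructor
  · rintro ⟨a, ha, rfl⟩
    rcases (h a).1 ha with rfl | rfl | rfl <;> simp
  · rintro (rfl | rfl | rfl)
    · exact ⟨x, (h x).2 (Or.inl rfl), rfl⟩
    · exact ⟨y, (h y).2 (Or.inr (Or.inl rfl)), rfl⟩
    · exact ⟨o, (h o).2 (Or.inr (Or.inr rfl)), rfl⟩

theorem mem_map2 {α : Type u} {c : α → ℕ} {V : List α} {x o : α}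
    (h : ∀ a, a ∈ V ↔ (a = x ∨ a = o)) (k : ℕ) :
    k ∈ V.map c ↔ (k = c x ∨ k = c o) := by
  rw [List.mem_map]
  constructor
  · rintro ⟨a, ha, rfl⟩
    rcases (h a).1 ha with rfl | rfl <;> simp
  · rintro (rfl | rfl)
    · exact ⟨x, (h x).2 (Or.inl rfl), rfl⟩
    · exact ⟨o, (h o).2 (Or.inr rfl), rfl⟩

theorem map_blk {α : Type u} (c : α → ℕ) (o x y : α) (m : ℕ) :
    (blk o x m y).map c = blk (c o) (c x) m (c y) := by
  simp [blk]

theorem mem_blk {α : Type u} {o x y a : α} {m : ℕ} (h : a ∈ blk o x m y) :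
    a = x ∨ a = y ∨ a = o := by
  simp only [blk, List.mem_cons, List.mem_append, List.mem_replicate, List.not_mem_nil,
    or_false] at h
  tauto

theorem blk_length {α : Type u} (o x y : α) (m : ℕ) : (blk o x m y).length = m + 2 := by
  simp [blk]

theorem sds_10 (k : ℕ) : k ∈ sds 1 0 ↔ k = cc 0 := by simp [sds]
theorem sds_20 (k : ℕ) : k ∈ sds 2 0 ↔ (k = cc 0 ∨ k = cc 1) := by
  simp [sds, List.range_succ]
theorem sds_11 (k : ℕ) : k ∈ sds 1 1 ↔ (k = cc 0 ∨ k = kk 0) := by simp [sds]
theorem sds_21 (k : ℕ) : k ∈ sds 2 1 ↔ (k = cc 0 ∨ k = cc 1 ∨ k = kk 0) := by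
  simp [sds, List.range_succ]

theorem cc_mem_sds {r h i : ℕ} (hi : i < r) : cc i ∈ sds r h := by
  simp only [sds, List.mem_append, List.mem_map, List.mem_range]
  exact Or.inl ⟨i, hi, rfl⟩

theorem kk_mem_sds {r h i : ℕ} (hi : i < h) : kk i ∈ sds r h := by
  simp only [sds, List.mem_append, List.mem_map, List.mem_range]
  exact Or.inr ⟨i, hi, rfl⟩

/-- odd colours -/
theorem col_odd {l r h : ℕ} {D : ℕ → Prop} {m : ℕ} {bad : List ℕ → Prop} {k : ℕ}
    (hk : (mkT l r h D m bad).cols k) (ho : k % 2 = 1) :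
    (∃ i, i < r ∧ k = cc i) ∨ (∃ j, D j ∧ k = dd j) := by
  rcases hk with h1 | ⟨i, _, rfl⟩ | h1 | ⟨i, _, rfl⟩
  · exact Or.inl h1
  · exfalso; simp only [kk] at ho; omega
  · exact Or.inr h1
  · exfalso; simp only [oo] at ho; omega

/-- even colours -/
theorem col_even {l r h : ℕ} {D : ℕ → Prop} {m : ℕ} {bad : List ℕ → Prop} {k : ℕ}
    (hk : (mkT l r h D m bad).cols k) (ho : ¬ k % 2 = 1) :
    (∃ i, i < h ∧ k = kk i) ∨ (∃ i, i < m ∧ k = oo i) := by
  rcases hk with ⟨i, _, rfl⟩ | h1 | ⟨i, _, rfl⟩ | h1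
  · exfalso; simp only [cc] at ho; omega
  · exact Or.inl h1
  · exfalso; simp only [dd] at ho; omega
  · exact Or.inr h1

theorem a2 : A2Statement.{u} := by
  classical
  intro J hJ α G main gen N o hA x hxG hx hgx y hyG hy hyx
  obtain ⟨core, cons, oG, hub, -⟩ := hA
  have ho : ¬ main o := (hub o oG).2 rfl
  have hxo : x ≠ o := fun h => ho (h ▸ hx)
  have hyo : y ≠ o := fun h => ho (h ▸ hy)
  have hL : 24 ≤ J.L := by simp only [TS.L]; omega
  -- generating sets
  obtain ⟨Zx, hZx, hZx'⟩ := hgx
  have hZxe : Zx = {x} := by ext t; simp [hZx' t]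
  subst hZxe
  -- V_z for generating {z}
  have hV1 : ∀ z ∈ G, main z → gen {z} → ∃ V : List α, (∀ a, a ∈ V ↔ (a = z ∨ a = o)) ∧
      V.length = J.L ∧ par main V = 0 ∧ N V := by
    intro z hzG hz hgz
    obtain ⟨V, h1, h2, ⟨o', ho'V, ho'⟩, h4, h5, h6⟩ := cons.c3 {z} hgz (by simp)
      (by intro a ha; rw [Finset.mem_singleton] at ha; rw [ha]; exact hz)
    refine ⟨V, fun a => ⟨fun ha => ?_, ?_⟩, h4, h5, h6⟩
    · by_cases hm : main a
      · exact Or.inl (by simpa using (h2 a ha).2 hm)
      · exact Or.inr ((hub a (h2 a ha).1).1 hm)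
    · rintro (rfl | rfl)
      · exact h1 _ (by simp)
      · have := (hub o' (h2 o' ho'V).1).1 ho'
        rwa [this] at ho'V
  -- V_xy
  have hgxy : gen {x, y} := core.gen_up {x} {x, y} hZx (by simp) (by
    intro a ha
    rw [Finset.mem_insert, Finset.mem_singleton] at ha
    rcases ha with rfl | rfl
    · exact hxG
    · exact hyG)
  obtain ⟨V, hV, hVl, hVp, hVN⟩ : ∃ V : List α, (∀ a, a ∈ V ↔ (a = x ∨ a = y ∨ a = o)) ∧
      V.length = J.L ∧ par main V = 0 ∧ N V := by
    obtain ⟨V, h1, h2, ⟨o', ho'V, ho'⟩, h4, h5, h6⟩ := cons.c3 {x, y} hgxy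
      (Finset.card_le_two.trans (by norm_num))
      (by
        intro a ha
        rw [Finset.mem_insert, Finset.mem_singleton] at ha
        rcases ha with rfl | rfl
        · exact hx
        · exact hy)
    refine ⟨V, fun a => ⟨fun ha => ?_, ?_⟩, h4, h5, h6⟩
    · by_cases hm : main a
      · have := (h2 a ha).2 hm
        rw [Finset.mem_insert, Finset.mem_singleton] at this
        exact this.elim Or.inl fun h => Or.inr (Or.inl h)
      · exact Or.inr (Or.inr ((hub a (h2 a ha).1).1 hm))
    · rintro (rfl | rfl | rfl)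
      · exact h1 _ (by simp)
      · exact h1 _ (by simp)
      · have := (hub o' (h2 o' ho'V).1).1 ho'
        rwa [this] at ho'V
  have hgY : gen {x, y, o} := core.gen_up {x} {x, y, o} hZx (by simp) (by
    intro a ha
    rw [Finset.mem_insert, Finset.mem_insert, Finset.mem_singleton] at ha
    rcases ha with rfl | rfl | rfl
    · exact hxG
    · exact hyG
    · exact oG)
  have hYm : ∀ a, a ∈ ({x, y, o} : Finset α) ↔ (a = x ∨ a = y ∨ a = o) := by
    intro a; simp
  obtain ⟨τ, hτ, c, ⟨hlab, hfull, hcov⟩, hbad⟩ := core.ol {x, y, o} hgY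
    (Finset.card_le_three.trans (by omega)) ⟨x, by simp, hx⟩ V
    (fun a => (hV a).trans (hYm a).symm) hVl hVp hVN
  have hcx := hlab x (by simp)
  have hcy := hlab y (by simp)
  have hco := hlab o (by simp)
  have hcx1 : c x % 2 = 1 := hcx.2.1 hx
  have hcy1 : c y % 2 = 1 := hcy.2.1 hy
  have hco1 : ¬ c o % 2 = 1 := fun h => ho (hco.2.2 h)
  have hlabV : ∀ W : List α, (∀ a ∈ W, a = x ∨ a = y ∨ a = o) →
      ∀ a ∈ W, (main a ↔ c a % 2 = 1) := fun W hW a ha => (hlab a ((hYm a).2 (hW a ha))).2
  -- which letter hits a seed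
  have hit : ∀ s ∈ τ.seeds, c x = s ∨ c y = s ∨ c o = s := by
    intro s hs
    obtain ⟨a, ha, rfl⟩ := hfull s hs
    rcases (hYm a).1 ha with rfl | rfl | rfl <;> simp
  have hitc : ∀ i, cc i ∈ τ.seeds → c x = cc i ∨ c y = cc i := by
    intro i hi
    rcases hit _ hi with h | h | h
    · exact Or.inl h
    · exact Or.inr h
    · exfalso; apply hco1; rw [h]; simp only [cc]; omega
  have hitk : ∀ i, kk i ∈ τ.seeds → c o = kk i := by
    intro i hi
    rcases hit _ hi with h | h | h
    · exfalso; rw [h] at hcx1; simp only [kk] at hcx1; omega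
    · exfalso; rw [h] at hcy1; simp only [kk] at hcy1; omega
    · exact h
  have no3 : cc 0 ∈ τ.seeds → cc 1 ∈ τ.seeds → cc 2 ∈ τ.seeds → False := by
    intro h0 h1 h2
    have a0 := hitc 0 h0
    have a1 := hitc 1 h1
    have a2 := hitc 2 h2
    simp only [cc] at a0 a1 a2
    omega
  rcases hτ with rfl | rfl | ⟨r, hr1, hr5, rfl⟩ | ⟨r, hr1, hr4, rfl⟩ | ⟨r, h, hh, hrh, rfl⟩
  · -- T1
    have hco' : c o = oo 0 := by
      rcases col_even hco.1 hco1 with ⟨i, hi, _⟩ | ⟨i, hi, h⟩
      · omega
      · have : i = 0 := by omega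
        rw [h, this]
    have hblk : ∀ z w m, (z = x ∨ z = y) → (w = x ∨ w = y) → (c z = cc 0 ∨ c w = cc 0) →
        bad1 J (blk (oo 0) (c z) m (c w)) → ¬ N (blk o z m w) := by
      intro z w m hz hw hc0 hb
      refine hbad _ ⟨?_, ?_, ?_⟩
      · intro a ha
        rw [hYm]
        rcases mem_blk ha with h | h | h
        · rw [h]; exact hz.elim Or.inl fun h => Or.inr (Or.inl h)
        · rw [h]; exact hw.elim Or.inl fun h => Or.inr (Or.inl h)
        · exact Or.inr (Or.inr h)
      · rw [map_blk, hco']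
        exact Or.inr hb
      · intro s hs
        have hs' : s = cc 0 := (sds_10 s).1 hs
        rw [map_blk, hs']
        simp only [blk, List.mem_cons, List.mem_append, List.not_mem_nil, or_false]
        rcases hc0 with h | h
        · exact Or.inl h.symm
        · exact Or.inr (Or.inr h.symm)
    have hgen : ∀ z, (z = x ∨ z = y) → c z = cc 0 → gen {z} := by
      intro z hz hcz
      refine hcov {z} ?_ ?_
      · intro a ha
        rw [Finset.mem_singleton] at ha
        rw [hYm, ha]
        exact hz.elim Or.inl fun h => Or.inr (Or.inl h)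
      · intro s hs
        exact ⟨z, by simp, by rw [hcz]; exact ((sds_10 s).1 hs).symm⟩
    have hx' : c x = cc 0 ∨ ∃ j, (J.inJ j = true ∧ J.succ j = false) ∧ c x = dd j := by
      rcases col_odd hcx.1 hcx1 with ⟨i, hi, h⟩ | h
      · have : i = 0 := by omega
        exact Or.inl (by rw [h, this])
      · exact Or.inr h
    have hy' : c y = cc 0 ∨ ∃ j, (J.inJ j = true ∧ J.succ j = false) ∧ c y = dd j := by
      rcases col_odd hcy.1 hcy1 with ⟨i, hi, h⟩ | h
      · have : i = 0 := by omega
        exact Or.inl (by rw [h, this])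
      · exact Or.inr h
    rcases hx' with hx0 | ⟨k, ⟨hk1, hk2⟩, hxk⟩
    · rcases hy' with hy0 | ⟨k, ⟨hk1, hk2⟩, hyk⟩
      · -- alpha
        left
        intro m hm hN
        by_contra hne
        refine hblk x y m (Or.inl rfl) (Or.inr rfl) (Or.inl hx0) ?_ hN
        rw [hx0, hy0]
        exact ⟨by rw [blk_length]; exact hm, Or.inr (Or.inr ⟨m, hne, rfl⟩)⟩
      · -- beta
        right; left
        refine ⟨k, hk1, hk2, fun m hm hN => ?_, fun m hm hN => ?_⟩
        · by_contra hne
          refine hblk x y m (Or.inl rfl) (Or.inr rfl) (Or.inl hx0) ?_ hN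
          rw [hx0, hyk]
          exact ⟨by rw [blk_length]; exact hm, Or.inl ⟨k, m, hk1, hk2, hne, rfl⟩⟩
        · by_contra hne
          refine hblk y x m (Or.inr rfl) (Or.inl rfl) (Or.inr hx0) ?_ hN
          rw [hx0, hyk]
          exact ⟨by rw [blk_length]; exact hm, Or.inr (Or.inl ⟨k, m, hk1, hk2, hne, rfl⟩)⟩
    · rcases hy' with hy0 | ⟨k', ⟨hk1', hk2'⟩, hyk⟩
      · -- gamma
        right; right
        refine ⟨⟨{y}, hgen y (Or.inr rfl) hy0, by simp⟩, k, hk1, hk2, fun m hm hN => ?_,
          fun m hm hN => ?_⟩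
        · by_contra hne
          refine hblk y x m (Or.inr rfl) (Or.inl rfl) (Or.inl hy0) ?_ hN
          rw [hy0, hxk]
          exact ⟨by rw [blk_length]; exact hm, Or.inl ⟨k, m, hk1, hk2, hne, rfl⟩⟩
        · by_contra hne
          refine hblk x y m (Or.inl rfl) (Or.inr rfl) (Or.inr hy0) ?_ hN
          rw [hy0, hxk]
          exact ⟨by rw [blk_length]; exact hm, Or.inr (Or.inl ⟨k, m, hk1, hk2, hne, rfl⟩)⟩
      · exfalso
        have := hitc 0 ((sds_10 _).2 rfl)
        rw [hxk, hyk] at this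
        simp only [cc, dd] at this
        omega
  · -- L3
    exact (no3 (cc_mem_sds (by norm_num)) (cc_mem_sds (by norm_num))
      (cc_mem_sds (by norm_num))).elim
  · -- G0
    exfalso
    have hco' : c o = oo 0 := by
      rcases col_even hco.1 hco1 with ⟨i, hi, _⟩ | ⟨i, hi, h⟩
      · omega
      · have : i = 0 := by omega
        rw [h, this]
    have hr : r = 1 ∨ r = 2 := by
      by_contra hr
      have h3 : 3 ≤ r := by omega
      exact no3 (cc_mem_sds (by omega)) (cc_mem_sds (by omega)) (cc_mem_sds (by omega))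
    rcases hr with rfl | rfl
    · have hx' : c x = cc 0 ∨ c x = dd 0 := by
        rcases col_odd hcx.1 hcx1 with ⟨i, hi, h⟩ | ⟨j, hj, h⟩
        · have : i = 0 := by omega
          exact Or.inl (by rw [h, this])
        · rw [hj] at h; exact Or.inr h
      have hy' : c y = cc 0 ∨ c y = dd 0 := by
        rcases col_odd hcy.1 hcy1 with ⟨i, hi, h⟩ | ⟨j, hj, h⟩
        · have : i = 0 := by omega
          exact Or.inl (by rw [h, this])
        · rw [hj] at h; exact Or.inr h
      have key : ∀ z, (z = x ∨ z = y) → c z = cc 0 → False := by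
        intro z hz hcz
        have hzG : z ∈ G := by rcases hz with rfl | rfl <;> assumption
        have hzm : main z := by rcases hz with rfl | rfl <;> assumption
        have hgz : gen {z} := by
          refine hcov {z} ?_ ?_
          · intro a ha
            rw [Finset.mem_singleton] at ha
            rw [hYm, ha]
            exact hz.elim Or.inl fun h => Or.inr (Or.inl h)
          · intro s hs
            exact ⟨z, by simp, by rw [hcz]; exact ((sds_10 s).1 hs).symm⟩
        obtain ⟨W, hW, hWl, hWp, hWN⟩ := hV1 z hzG hzm hgz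
        have hWY : ∀ a ∈ W, a = x ∨ a = y ∨ a = o := by
          intro a ha
          rcases (hW a).1 ha with h | h
          · rw [h]; exact hz.elim Or.inl fun h => Or.inr (Or.inl h)
          · exact Or.inr (Or.inr h)
        refine hbad W (badG0 1 (fun a ha => (hYm a).2 (hWY a ha)) (hlabV W hWY) hWl hWp ?_) hWN
        intro k
        rw [mem_map2 hW, sds_10, hcz, hco']
      rcases hitc 0 ((sds_10 _).2 rfl) with h | h
      · exact key x (Or.inl rfl) h
      · exact key y (Or.inr rfl) h
    · refine hbad V (badG0 2 (fun a ha => (hYm a).2 ((hV a).1 ha))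
        (hlabV V fun a ha => (hV a).1 ha) hVl hVp ?_) hVN
      intro k
      rw [mem_map3 hV, sds_20, hco']
      have h0 := hitc 0 ((sds_20 _).2 (Or.inl rfl))
      have h1 := hitc 1 ((sds_20 _).2 (Or.inr rfl))
      have h01 : cc 0 ≠ cc 1 := by decide
      rcases h0 with h0 | h0
      · rcases h1 with h1 | h1
        · exact absurd (h0.symm.trans h1) h01
        · rw [h0, h1]; tauto
      · rcases h1 with h1 | h1
        · rw [h0, h1]; tauto
        · exact absurd (h0.symm.trans h1) h01
  · -- G1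
    exfalso
    have hco' : c o = kk 0 := hitk 0 (kk_mem_sds (by norm_num))
    have hr : r = 1 ∨ r = 2 := by
      by_contra hr
      have h3 : 3 ≤ r := by omega
      exact no3 (cc_mem_sds (by omega)) (cc_mem_sds (by omega)) (cc_mem_sds (by omega))
    rcases hr with rfl | rfl
    · have key : ∀ z, (z = x ∨ z = y) → c z = cc 0 → False := by
        intro z hz hcz
        have hzG : z ∈ G := by rcases hz with rfl | rfl <;> assumption
        have hzm : main z := by rcases hz with rfl | rfl <;> assumption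
        have hzo : z ≠ o := by rcases hz with rfl | rfl <;> assumption
        have hgz : gen {z, o} := by
          refine hcov {z, o} ?_ ?_
          · intro a ha
            rw [Finset.mem_insert, Finset.mem_singleton] at ha
            rw [hYm]
            rcases ha with h | h
            · rw [h]; exact hz.elim Or.inl fun h => Or.inr (Or.inl h)
            · exact Or.inr (Or.inr h)
          · intro s hs
            rcases (sds_11 s).1 hs with rfl | rfl
            · exact ⟨z, by simp, hcz⟩
            · exact ⟨o, by simp, hco'⟩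
        obtain ⟨W, hW, hWl, hWp, hWN⟩ := cons.c2 {z, o} hgz
          (Finset.card_le_two.trans (by norm_num)) o (by simp) ho
          (by
            intro a ha hao
            rw [Finset.mem_insert, Finset.mem_singleton] at ha
            rcases ha with rfl | rfl
            · exact hzm
            · exact absurd rfl hao)
          ⟨z, by simp, hzm⟩
        have hW' : ∀ a, a ∈ W ↔ (a = z ∨ a = o) := by
          intro a
          rw [hW, Finset.mem_insert, Finset.mem_singleton]
        have hWY : ∀ a ∈ W, a = x ∨ a = y ∨ a = o := by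
          intro a ha
          rcases (hW' a).1 ha with h | h
          · rw [h]; exact hz.elim Or.inl fun h => Or.inr (Or.inl h)
          · exact Or.inr (Or.inr h)
        refine hbad W (badG1 1 (fun a ha => (hYm a).2 (hWY a ha)) (hlabV W hWY) hWl hWp ?_) hWN
        intro k
        rw [mem_map2 hW', sds_11, hcz, hco']
      rcases hitc 0 (cc_mem_sds (by norm_num)) with h | h
      · exact key x (Or.inl rfl) h
      · exact key y (Or.inr rfl) h
    · refine hbad V (badG1 2 (fun a ha => (hYm a).2 ((hV a).1 ha))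
        (hlabV V fun a ha => (hV a).1 ha) hVl hVp ?_) hVN
      intro k
      rw [mem_map3 hV, sds_21, hco']
      have h0 := hitc 0 (cc_mem_sds (by norm_num))
      have h1 := hitc 1 (cc_mem_sds (by norm_num))
      have h01 : cc 0 ≠ cc 1 := by decide
      rcases h0 with h0 | h0
      · rcases h1 with h1 | h1
        · exact absurd (h0.symm.trans h1) h01
        · rw [h0, h1]
      · rcases h1 with h1 | h1
        · rw [h0, h1]; tauto
        · exact absurd (h0.symm.trans h1) h01
  · -- FF
    exfalso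
    have h0 := hitk 0 (kk_mem_sds (by omega))
    have h1 := hitk 1 (kk_mem_sds (by omega))
    rw [h0] at h1
    simp only [kk] at h1
    omega

end Pool.Agent.Lib.MP_226ef1_lc.U.H74
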